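import Pool.Agent.Run7.h854.FT.Refl
import Pool.Agent.Q111.FT.Schur

/-! # Folding: the job FACE -/

set_option autoImplicit false

namespace Run7.h854.FT

open Pool.Agent.Q169.FT
open Pool.Agent.Q169.ZD (par)
open scoped Classical

noncomputable section

variable {E : ℕ → Type} {bd : ∀ i, E (i + 1) → (E i →₀ ℤ)}

section face

variable {T : Type} {M : CoxeterMatrix T} {K : Type} [Group K] {cs : CoxeterSystem M K}
  {B C : ∀ i, Set (E i)} {mir : ∀ i, E i → Set T} {κ : ∀ i, E i → K → E i}
  (hR : Refl bd cs B C mir κ)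

/-- the cells of the face `I` which are in a wall in `J` -/
def DD (C : ∀ i, Set (E i)) (mir : ∀ i, E i → Set T) (I J : Set T) : ∀ i, Set (E i) :=
  fun i => {e | e ∈ C i ∧ I ⊆ mir i e ∧ (mir i e ∩ J).Nonempty}

include hR

theorem DD_sub (I J : Set T) : IsSub bd (DD C mir I J) := by
  rintro i e f ⟨he, hI, t, ht, hJ⟩ hf
  have h1 := hR.face i e he f hf
  exact ⟨hR.sub i e f he hf, hI.trans h1, t, h1 ht, hJ⟩

theorem un_sub (J : Set T) : IsSub bd (un C mir J) := by
  rintro i e f ⟨he, t, ht, hJ⟩ hf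
  exact ⟨hR.sub i e f he hf, t, hR.face i e he f hf ht, hJ⟩

theorem fc_sub (I : Set T) : IsSub bd (fc C mir I) := by
  rintro i e f ⟨he, hI⟩ hf
  exact ⟨hR.sub i e f he hf, hI.trans (hR.face i e he f hf)⟩

theorem ex_C (hB : ExS bd B) : ExS bd C := by
  have h := refl_main hR hB ∅
  have h1 : un C mir (∅ : Set T) = fun _ => ∅ := by
    funext i
    ext e
    simp [un]
  rw [h1] at h
  exact h

theorem ex_DD (hG : Good bd) (hB : ExS bd B) (I : Finset T) :
    ∀ J : Set T, ExS bd (DD C mir (I : Set T) J) := by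
  induction I using Finset.induction_on with
  | empty =>
    intro J
    have h1 : DD C mir ((∅ : Finset T) : Set T) J = un C mir J := by
      funext i
      ext e
      simp [un, DD]
    rw [h1]
    exact seq E bd hG C (un C mir J) hR.sub (un_sub hR J) (fun i e he => he.1) (ex_C hR hB)
      (refl_main hR hB J)
  | insert s I _ ih =>
    intro J
    have h1 : DD C mir ((insert s I : Finset T) : Set T) J =
        fun i => DD C mir (I : Set T) {s} i ∩ DD C mir (I : Set T) J i := by
      funext i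
      ext e
      simp only [DD, Set.mem_setOf_eq, Set.mem_inter_iff, Finset.coe_insert, Set.insert_subset_iff]
      constructor
      · rintro ⟨a, ⟨b, c⟩, d⟩
        exact ⟨⟨a, c, s, b, rfl⟩, a, c, d⟩
      · rintro ⟨⟨a, c, t, b, hb⟩, _, _, d⟩
        rw [Set.mem_singleton_iff] at hb
        rw [hb] at b
        exact ⟨a, ⟨b, c⟩, d⟩
    have h2 : (fun i => DD C mir (I : Set T) {s} i ∪ DD C mir (I : Set T) J i) =
        DD C mir (I : Set T) (insert s J) := by
      funext i
      ext e
      simp only [DD, Set.mem_setOf_eq, Set.mem_union]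
      constructor
      · rintro (⟨a, c, t, b, hb⟩ | ⟨a, c, t, b, hb⟩)
        · rw [Set.mem_singleton_iff] at hb
          exact ⟨a, c, t, b, Or.inl hb⟩
        · exact ⟨a, c, t, b, Or.inr hb⟩
      · rintro ⟨a, c, t, b, hb | hb⟩
        · exact Or.inl ⟨a, c, t, b, hb⟩
        · exact Or.inr ⟨a, c, t, b, hb⟩
    rw [h1]
    refine mv E bd hG _ _ (DD_sub hR _ _) (DD_sub hR _ _) (ih _) (ih _) ?_
    rw [h2]
    exact ih _

theorem finT : Finite T := by
  have := hR.finite
  exact Finite.of_injective cs.simple fun _ _ h => Q27.Cox.simple_inj cs h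

theorem ex_fc (hG : Good bd) (hB : ExS bd B) (I : Set T) : ExS bd (fc C mir I) := by
  have := finT hR
  obtain ⟨I, rfl⟩ : ∃ I' : Finset T, (I' : Set T) = I :=
    ⟨(Set.toFinite I).toFinset, Set.Finite.coe_toFinset _⟩
  rcases I.eq_empty_or_nonempty with rfl | ⟨s, hs⟩
  · have h1 : fc C mir ((∅ : Finset T) : Set T) = C := by
      funext i
      ext e
      simp [fc]
    rw [h1]
    exact ex_C hR hB
  · have h1 : fc C mir (I : Set T) = DD C mir ((I.erase s : Finset T) : Set T) {s} := by
      funext i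
      ext e
      simp only [fc, DD, Set.mem_setOf_eq, Finset.coe_erase]
      constructor
      · rintro ⟨a, b⟩
        exact ⟨a, fun t ht => b ht.1, s, b hs, rfl⟩
      · rintro ⟨a, b, t, c, hc⟩
        rw [Set.mem_singleton_iff] at hc
        rw [hc] at c
        refine ⟨a, fun t ht => ?_⟩
        by_cases hts : t = s
        · rw [hts]; exact c
        · exact b ⟨ht, hts⟩
    rw [h1]
    exact ex_DD hR hG hB _ _

end face

theorem face : S_FACE := by
  intro E bd hG hU A hA
  have h : IsSub bd A ∧ ExS bd A := by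
    induction hA with
    | base => exact ⟨fun _ _ _ _ _ => trivial, hU⟩
    | face cs h hR I ih => exact ⟨fc_sub hR I, ex_fc hR hG ih.2 I⟩
    | retract h hr ih => exact ⟨hr.sub, Pool.Agent.Q111.FT.retr _ _ _ _ _ _ ih.1 hr ih.2⟩
    | inter h₁ h₂ h ih₁ ih₂ ih =>
      exact ⟨fun i e f he hf => ⟨ih₁.1 i e f he.1 hf, ih₂.1 i e f he.2 hf⟩,
        mv _ _ hG _ _ ih₁.1 ih₂.1 ih₁.2 ih₂.2 ih.2⟩
  exact h.2

end

end Run7.h854.FT
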