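import Pool.Agent.Run7.h854.FT.SeqMv

/-! # Folding: the job REFL -/

set_option autoImplicit false

namespace Run7.h854.FT

open Pool.Agent.Q169.FT
open Pool.Agent.Q169.ZD (par)
open scoped Classical

noncomputable section

/-- square summability of a function which is dominated by a square summable function along a map
with finite fibres -/
theorem memlp_inj {X Y K : Type} [Finite K] {c : Y → ℂ} (hc : Memℓp c 2) {g : X → ℂ} (r : X → Y)
    (s : X → K) (hinj : ∀ x x', g x ≠ 0 → g x' ≠ 0 → r x = r x' → s x = s x' → x = x')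
    (hle : ∀ x, g x ≠ 0 → ‖g x‖ ≤ ‖c (r x)‖) : Memℓp g 2 := by
  have h2 : 0 < (2 : ENNReal).toReal := by norm_num
  rw [memℓp_gen_iff h2] at hc ⊢
  have : Fintype K := Fintype.ofFinite K
  have h1 : Summable fun p : Y × K => ‖c p.1‖ ^ (2 : ENNReal).toReal * (1 : ℝ) :=
    Summable.mul_of_nonneg hc (hasSum_fintype (fun _ : K => (1 : ℝ))).summable
      (fun y => by positivity) (fun _ => zero_le_one)
  have hfi : Function.Injective fun x : {x // g x ≠ 0} => (r x.1, s x.1) := by
    intro x x' h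
    simp only [Prod.mk.injEq] at h
    exact Subtype.ext (hinj x.1 x'.1 x.2 x'.2 h.1 h.2)
  have h3 := h1.comp_injective hfi
  have h4 : Summable fun x : {x // g x ≠ 0} => ‖g x.1‖ ^ (2 : ENNReal).toReal := by
    refine Summable.of_nonneg_of_le (fun x => by positivity) (fun x => ?_) h3
    simp only [Function.comp, mul_one]
    exact Real.rpow_le_rpow (norm_nonneg _) (hle x.1 x.2) h2.le
  have h5 : (fun x => ‖g x‖ ^ (2 : ENNReal).toReal) =
      Set.indicator {x | g x ≠ 0} fun x => ‖g x‖ ^ (2 : ENNReal).toReal := by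
    funext x
    by_cases hx : g x = 0
    · rw [Set.indicator_of_notMem (by simpa using hx), hx, norm_zero, Real.zero_rpow h2.ne']
    · rw [Set.indicator_of_mem (show x ∈ {x | g x ≠ 0} from hx)]
  rw [h5, ← summable_subtype_iff_indicator]
  exact h4

theorem memlp_sum {X ι : Type} (s : Finset ι) (f : ι → X → ℂ) (h : ∀ i ∈ s, Memℓp (f i) 2) :
    Memℓp (fun x => ∑ i ∈ s, f i x) 2 := by
  induction s using Finset.induction_on with
  | empty =>
    simp only [Finset.sum_empty]
    exact zero_memℓp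
  | insert a s ha ih =>
    have h1 : (fun x => ∑ i ∈ insert a s, f i x) = f a + fun x => ∑ i ∈ s, f i x := by
      funext x
      rw [Finset.sum_insert ha]
      rfl
    rw [h1]
    exact (h a (Finset.mem_insert_self _ _)).add (ih fun i hi => h i (Finset.mem_insert_of_mem hi))

theorem par_inter {T : Type} {M : CoxeterMatrix T} {K : Type} [Group K] (cs : CoxeterSystem M K)
    (J : Set T) {w : K} (h1 : w ∈ par cs J) (h2 : w ∈ par cs Jᶜ) : w = 1 := by
  have h3 : Q27.Cox.supp cs w ⊆ ∅ := by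
    intro i hi
    exact absurd (Q27.Cox.mem_P_iff.1 h1 hi) (Q27.Cox.mem_P_iff.1 h2 hi)
  have h4 : w ∈ Q27.Cox.P cs (∅ : Set T) := Q27.Cox.mem_P_iff.2 h3
  unfold Q27.Cox.P at h4
  rw [Set.image_empty, Subgroup.closure_empty] at h4
  exact Subgroup.mem_bot.1 h4

/-- the sign -/
def sg {T : Type} {M : CoxeterMatrix T} {K : Type} [Group K] (cs : CoxeterSystem M K) (w : K) : ℂ :=
  (-1) ^ cs.length w

theorem sg_one {T : Type} {M : CoxeterMatrix T} {K : Type} [Group K] (cs : CoxeterSystem M K) :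
    sg cs 1 = 1 := by
  unfold sg
  rw [cs.length_one, pow_zero]

theorem sg_mul {T : Type} {M : CoxeterMatrix T} {K : Type} [Group K] (cs : CoxeterSystem M K)
    (w : K) (t : T) : sg cs (w * cs.simple t) = - sg cs w := by
  unfold sg
  rcases cs.length_mul_simple w t with h | h
  · rw [h, pow_succ]; ring
  · rw [← h, pow_succ]; ring

section refl

variable {E : ℕ → Type} {bd : ∀ i, E (i + 1) → (E i →₀ ℤ)}
  {T : Type} {M : CoxeterMatrix T} {K : Type} [Group K] {cs : CoxeterSystem M K}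
  {B C : ∀ i, Set (E i)} {mir : ∀ i, E i → Set T} {κ : ∀ i, E i → K → E i}
  (hR : Refl bd cs B C mir κ)

/-- the unfolded cochain -/
def Ph (cs : CoxeterSystem M K) (C : ∀ i, Set (E i)) (κ : ∀ i, E i → K → E i) (J : Set T) (i : ℕ)
    (c : E i → ℂ) (x : E i) : ℂ :=
  if h : ∃ p : E i × K, p.1 ∈ C i ∧ p.2 ∈ par cs Jᶜ ∧ κ i p.1 p.2 = x then c h.choose.1 else 0

include hR

theorem Ph_apply (J : Set T) (i : ℕ) (c : E i → ℂ) (h0 : ∀ e ∈ un C mir J i, c e = 0) (e : E i)
    (he : e ∈ C i) (w : K) :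
    Ph cs C κ J i c (κ i e w) = if w ∈ par cs Jᶜ then c e else 0 := by
  unfold Ph
  by_cases h : ∃ p : E i × K, p.1 ∈ C i ∧ p.2 ∈ par cs Jᶜ ∧ κ i p.1 p.2 = κ i e w
  · rw [dif_pos h]
    obtain ⟨h1, h2, h3⟩ := h.choose_spec
    have h4 := (hR.inj i _ h1 e he _ w).1 h3
    rw [h4.1]
    by_cases hw : w ∈ par cs Jᶜ
    · rw [if_pos hw]
    · rw [if_neg hw]
      apply h0
      refine ⟨he, ?_⟩
      by_contra hne
      rw [Set.not_nonempty_iff_eq_empty] at hne
      apply hw
      have h5 : par cs (mir i e) ≤ par cs Jᶜ := by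
        apply Q27.Cox.P_mono
        intro t ht hJ
        have : t ∈ mir i e ∩ J := ⟨ht, hJ⟩
        rw [hne] at this
        exact this
      have h6 := h4.2
      rw [h4.1] at h6
      have h7 := mul_mem h2 (h5 h6)
      rwa [mul_inv_cancel_left] at h7
  · rw [dif_neg h]
    have hw : w ∉ par cs Jᶜ := fun hw => h ⟨(e, w), he, hw, rfl⟩
    rw [if_neg hw]

theorem Ph_mem (J : Set T) (i : ℕ) {c : E i → ℂ} (hc : Memℓp c 2) :
    Memℓp (Ph cs C κ J i c) 2 := by
  have := hR.finite
  have hex : ∀ x : E i, Ph cs C κ J i c x ≠ 0 →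
      ∃ p : E i × K, p.1 ∈ C i ∧ p.2 ∈ par cs Jᶜ ∧ κ i p.1 p.2 = x := by
    intro x hx
    by_contra h
    exact hx (dif_neg h)
  refine memlp_inj hc
    (fun x => if h : ∃ p : E i × K, p.1 ∈ C i ∧ p.2 ∈ par cs Jᶜ ∧ κ i p.1 p.2 = x
      then h.choose.1 else x)
    (fun x => if h : ∃ p : E i × K, p.1 ∈ C i ∧ p.2 ∈ par cs Jᶜ ∧ κ i p.1 p.2 = x
      then h.choose.2 else 1) ?_ ?_
  · intro x x' hx hx' h1 h2
    have hp := hex x hx
    have hp' := hex x' hx'
    rw [dif_pos hp, dif_pos hp'] at h1 h2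
    rw [← hp.choose_spec.2.2, ← hp'.choose_spec.2.2, h1, h2]
  · intro x hx
    have hp := hex x hx
    rw [dif_pos hp]
    unfold Ph
    rw [dif_pos hp]

theorem Ph_cob (J : Set T) (i : ℕ) (c : E i → ℂ) (h0 : ∀ e ∈ un C mir J i, c e = 0)
    (hδ : ∀ e ∈ C (i + 1), cob bd i c e = 0) :
    ∀ x ∈ B (i + 1), cob bd i (Ph cs C κ J i c) x = 0 := by
  intro x hx
  obtain ⟨e, he, w, rfl⟩ := hR.surj (i + 1) x hx
  unfold cob
  rw [hR.bd_smul i e he w,
    Finsupp.sum_mapDomain_index (fun _ => by rw [Int.cast_zero, zero_mul])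
      (fun _ _ _ => by rw [Int.cast_add, add_mul])]
  have h1 : ((bd i e).sum fun f n => ((n : ℤ) : ℂ) * Ph cs C κ J i c (κ i f w)) =
      (bd i e).sum fun f n => ((n : ℤ) : ℂ) * (if w ∈ par cs Jᶜ then c f else 0) := by
    refine Finsupp.sum_congr fun f hf => ?_
    rw [Ph_apply hR J i c h0 f (hR.sub i e f he (Finsupp.mem_support_iff.1 hf)) w]
  rw [h1]
  by_cases hw : w ∈ par cs Jᶜ
  · simp only [if_pos hw]
    exact hδ e he
  · simp only [if_neg hw, mul_zero]
    exact Finset.sum_const_zero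

/-- the folded cochain -/
def Fo (cs : CoxeterSystem M K) (C : ∀ i, Set (E i)) (κ : ∀ i, E i → K → E i) (J : Set T) (i : ℕ)
    [Fintype K] (b : E i → ℂ) (e : E i) : ℂ :=
  ∑ u : K, rs (C i) (fun e => if u ∈ par cs J then sg cs u * b (κ i e u) else 0) e

theorem Fo_mem [Fintype K] (J : Set T) (i : ℕ) {b : E i → ℂ} (hb : Memℓp b 2) :
    Memℓp (Fo cs C κ J i b) 2 := by
  refine memlp_sum _ _ fun u _ => ?_
  refine memlp_inj (K := Unit) hb (fun e => κ i e u) (fun _ => ()) ?_ ?_
  · intro x x' hx hx' h1 _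
    have hC : x ∈ C i := by
      by_contra h
      exact hx (rs_not h)
    have hC' : x' ∈ C i := by
      by_contra h
      exact hx' (rs_not h)
    exact ((hR.inj i x hC x' hC' u u).1 h1).1
  · intro x hx
    have hC : x ∈ C i := by
      by_contra h
      exact hx (rs_not h)
    rw [rs_mem hC]
    by_cases hu : u ∈ par cs J
    · rw [if_pos hu, norm_mul]
      have : ‖sg cs u‖ = 1 := by
        unfold sg
        rw [norm_pow, norm_neg, norm_one, one_pow]
      rw [this, one_mul]
    · rw [if_neg hu, norm_zero]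
      exact norm_nonneg _

theorem Fo_un [Fintype K] (J : Set T) (i : ℕ) (b : E i → ℂ) :
    ∀ e ∈ un C mir J i, Fo cs C κ J i b e = 0 := by
  intro e he
  obtain ⟨heC, s, hs, hsJ⟩ := he
  unfold Fo
  have hsP : cs.simple s ∈ par cs J := Q27.Cox.simple_mem_P hsJ
  have h1 : ∀ u : K, rs (C i) (fun e => if u ∈ par cs J then sg cs u * b (κ i e u) else 0) e =
      if u ∈ par cs J then sg cs u * b (κ i e u) else 0 := fun u => rs_mem heC
  simp only [h1]
  have h2 : ∑ u : K, (if u ∈ par cs J then sg cs u * b (κ i e u) else 0) =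
      ∑ u : K, -(if u ∈ par cs J then sg cs u * b (κ i e u) else 0) := by
    refine Fintype.sum_equiv (Equiv.mulRight (cs.simple s)) _ _ fun u => ?_
    have h3 : u * cs.simple s ∈ par cs J ↔ u ∈ par cs J := Subgroup.mul_mem_cancel_right _ hsP
    change (if u ∈ par cs J then sg cs u * b (κ i e u) else 0) =
      -(if u * cs.simple s ∈ par cs J then sg cs (u * cs.simple s) *
        b (κ i e (u * cs.simple s)) else 0)
    by_cases hu : u ∈ par cs J
    · rw [if_pos hu, if_pos (h3.2 hu), sg_mul]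
      have h4 : κ i e u = κ i e (u * cs.simple s) := by
        rw [hR.inj i e heC e heC]
        refine ⟨rfl, ?_⟩
        rw [inv_mul_cancel_left]
        exact Q27.Cox.simple_mem_P hs
      rw [← h4]
      ring
    · rw [if_neg hu, if_neg (fun h => hu (h3.1 h))]
      ring
  rw [Finset.sum_neg_distrib] at h2
  exact self_eq_neg.1 h2

theorem Fo_cob [Fintype K] (J : Set T) (i : ℕ) (b : E i → ℂ) (e : E (i + 1)) (he : e ∈ C (i + 1)) :
    cob bd i (Fo cs C κ J i b) e =
      ∑ u : K, if u ∈ par cs J then sg cs u * cob bd i b (κ (i + 1) e u) else 0 := by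
  have h1 : ∀ u : K, (if u ∈ par cs J then sg cs u * cob bd i b (κ (i + 1) e u) else 0) =
      ∑ f ∈ (bd i e).support, ((bd i e f : ℤ) : ℂ) *
        (if u ∈ par cs J then sg cs u * b (κ i f u) else 0) := by
    intro u
    by_cases hu : u ∈ par cs J
    · simp only [if_pos hu]
      unfold cob
      rw [hR.bd_smul i e he u,
        Finsupp.sum_mapDomain_index (fun _ => by rw [Int.cast_zero, zero_mul])
          (fun _ _ _ => by rw [Int.cast_add, add_mul])]
      unfold Finsupp.sum
      rw [Finset.mul_sum]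
      refine Finset.sum_congr rfl fun f _ => ?_
      ring
    · simp only [if_neg hu, mul_zero, Finset.sum_const_zero]
  rw [Finset.sum_congr rfl fun u _ => h1 u, Finset.sum_comm]
  unfold cob Finsupp.sum
  refine Finset.sum_congr rfl fun f hf => ?_
  rw [← Finset.mul_sum]
  have h2 : Fo cs C κ J i b f = ∑ u : K, if u ∈ par cs J then sg cs u * b (κ i f u) else 0 := by
    unfold Fo
    refine Finset.sum_congr rfl fun u _ => ?_
    rw [rs_mem (hR.sub i e f he (Finsupp.mem_support_iff.1 hf))]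
  change ((bd i e f : ℤ) : ℂ) * Fo cs C κ J i b f = _
  rw [h2]

theorem refl_main (hB : ExS bd B) (J : Set T) : ExP bd C (un C mir J) := by
  have := hR.finite
  have : Fintype K := Fintype.ofFinite K
  refine ⟨fun c hc h0 hδ e he => ?_, fun i c hc h0 hδ => ?_⟩
  · have h1 := hB.1 (Ph cs C κ J 0 c) (Ph_mem hR J 0 hc) (fun _ h => h.elim)
      (Ph_cob hR J 0 c h0 hδ) (κ 0 e 1) (hR.mem 0 e he 1)
    rw [Ph_apply hR J 0 c h0 e he, if_pos (one_mem _)] at h1
    exact h1
  · obtain ⟨b, hb, -, hb1⟩ := hB.2 i (Ph cs C κ J (i + 1) c) (Ph_mem hR J _ hc)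
      (fun _ h => h.elim) (Ph_cob hR J _ c h0 hδ)
    refine ⟨Fo cs C κ J i b, Fo_mem hR J i hb, Fo_un hR J i b, fun e he => ?_⟩
    rw [Fo_cob hR J i b e he]
    have h1 : ∀ u : K, (if u ∈ par cs J then sg cs u * cob bd i b (κ (i + 1) e u) else 0) =
        if u = 1 then c e else 0 := by
      intro u
      rw [← hb1 _ (hR.mem _ e he u), Ph_apply hR J _ c h0 e he]
      by_cases hu : u = 1
      · subst hu
        rw [if_pos (one_mem _), if_pos (one_mem _), if_pos rfl, sg_one, one_mul]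
      · rw [if_neg hu]
        by_cases hJ : u ∈ par cs J
        · rw [if_pos hJ, if_neg (fun h => hu (par_inter cs J hJ h)), mul_zero]
        · rw [if_neg hJ]
    rw [Finset.sum_congr rfl fun u _ => h1 u, Finset.sum_ite_eq' Finset.univ 1 fun _ => c e,
      if_pos (Finset.mem_univ _)]

end refl

theorem refl : S_REFL := by
  intro E bd T M K _ cs B C mir κ hR hB J
  exact refl_main hR hB J

end

end Run7.h854.FT
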