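import Pool.Agent.Q169.FT.Stm

/-! # Folding: the jobs SEQ and MV -/

set_option autoImplicit false

namespace Run7.h854.FT

open Pool.Agent.Q169.FT
open scoped Classical

noncomputable section

variable {E : ℕ → Type} {bd : ∀ i, E (i + 1) → (E i →₀ ℤ)}

theorem cob_congr {i : ℕ} {c c' : E i → ℂ} {e : E (i + 1)}
    (h : ∀ f, bd i e f ≠ 0 → c f = c' f) : cob bd i c e = cob bd i c' e := by
  unfold cob
  refine Finsupp.sum_congr fun f hf => ?_
  rw [h f (Finsupp.mem_support_iff.1 hf)]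

theorem cob_sub (i : ℕ) (c c' : E i → ℂ) (e : E (i + 1)) :
    cob bd i (c - c') e = cob bd i c e - cob bd i c' e := by
  unfold cob Finsupp.sum
  rw [← Finset.sum_sub_distrib]
  refine Finset.sum_congr rfl fun f _ => ?_
  simp only [Pi.sub_apply, mul_sub]

theorem cob_zero (i : ℕ) (e : E (i + 1)) : cob bd i (fun _ => 0) e = 0 := by
  unfold cob Finsupp.sum
  exact Finset.sum_eq_zero fun f _ => mul_zero _

/-- restriction to a set of cells -/
def rs {X : Type} (s : Set X) (c : X → ℂ) : X → ℂ := fun e => if e ∈ s then c e else 0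

theorem rs_mem {X : Type} {s : Set X} {c : X → ℂ} {e : X} (h : e ∈ s) : rs s c e = c e := if_pos h

theorem rs_not {X : Type} {s : Set X} {c : X → ℂ} {e : X} (h : e ∉ s) : rs s c e = 0 := if_neg h

theorem memlp_rs {X : Type} (s : Set X) {c : X → ℂ} (h : Memℓp c 2) : Memℓp (rs s c) 2 :=
  Pool.Agent.Q169.ZD.memlp_msk s h

section step

variable (hG : Good bd) {A B : ∀ i, Set (E i)} (hA : IsSub bd A) (hB : IsSub bd B)

/-- the cochain `d` -/
def dd (A B : ∀ i, Set (E i)) (i : ℕ) (c : E i → ℂ) : E (i + 1) → ℂ :=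
  rs (A (i + 1)) (cob bd i (rs (B i) c))

include hG in
theorem dd_mem (i : ℕ) {c : E i → ℂ} (hc : Memℓp c 2) : Memℓp (dd (bd := bd) A B i c) 2 :=
  memlp_rs _ (hG.mem i _ (memlp_rs _ hc))

include hB in
theorem dd_B (i : ℕ) {c : E i → ℂ} (h : ∀ e ∈ B (i + 1), cob bd i c e = 0) :
    ∀ e ∈ B (i + 1), dd (bd := bd) A B i c e = 0 := by
  intro e he
  unfold dd
  by_cases hA' : e ∈ A (i + 1)
  · rw [rs_mem hA', ← h e he]
    exact cob_congr fun f hf => rs_mem (hB i e f he hf)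
  · exact rs_not hA'

include hG hA in
theorem dd_cob (i : ℕ) (c : E i → ℂ) :
    ∀ e ∈ A (i + 2), cob bd (i + 1) (dd (bd := bd) A B i c) e = 0 := by
  intro e he
  have h1 : cob bd (i + 1) (dd (bd := bd) A B i c) e =
      cob bd (i + 1) (cob bd i (rs (B i) c)) e :=
    cob_congr fun f hf => rs_mem (hA (i + 1) e f he hf)
  rw [h1, hG.sq]
  rfl

end step

theorem seq : S_SEQ := by
  intro E bd hG A B hA hB hBA hExA hExAB
  refine ⟨fun c hc _ hδ e he => ?_, fun i c hc _ hδ => ?_⟩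
  · obtain ⟨b, hb, hb0, hbd⟩ := hExAB.2 0 (dd (bd := bd) A B 0 c) (dd_mem hG 0 hc)
      (dd_B hB 0 hδ) (dd_cob hG hA 0 c)
    have h1 := hExA.1 (rs (B 0) c - b) ((memlp_rs _ hc).sub hb) (fun _ h => h.elim) (by
      intro e he
      rw [cob_sub, ← hbd e he]
      unfold dd
      rw [rs_mem he, sub_self]) e (hBA 0 he)
    rw [Pi.sub_apply, rs_mem he, hb0 e he, sub_zero] at h1
    exact h1
  · obtain ⟨b, hb, hb0, hbd⟩ := hExAB.2 (i + 1) (dd (bd := bd) A B (i + 1) c) (dd_mem hG _ hc)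
      (dd_B hB _ hδ) (dd_cob hG hA _ c)
    obtain ⟨c', hc', -, h1⟩ := hExA.2 i (rs (B (i + 1)) c - b) ((memlp_rs _ hc).sub hb)
      (fun _ h => h.elim) (by
      intro e he
      rw [cob_sub, ← hbd e he]
      unfold dd
      rw [rs_mem he, sub_self])
    refine ⟨c', hc', fun _ h => h.elim, fun e he => ?_⟩
    have h2 := h1 e (hBA _ he)
    rw [Pi.sub_apply, rs_mem he, hb0 e he, sub_zero] at h2
    exact h2

theorem mv : S_MV := by
  intro E bd hG A₁ A₂ hA₁ hA₂ hE₁ hE₂ hEU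
  have hF : IsSub bd (fun i => A₁ i ∩ A₂ i) := fun i e f he hf =>
    ⟨hA₁ i e f he.1 hf, hA₂ i e f he.2 hf⟩
  -- the cochain `d` vanishes on `A₂`
  have hd2 : ∀ (i : ℕ) (c : E i → ℂ), (∀ e ∈ A₁ (i + 1) ∩ A₂ (i + 1), cob bd i c e = 0) →
      ∀ e ∈ A₂ (i + 1), dd (bd := bd) A₁ (fun i => A₁ i ∩ A₂ i) i c e = 0 := by
    intro i c hδ e he
    by_cases h1 : e ∈ A₁ (i + 1)
    · exact dd_B (A := A₁) hF i hδ e ⟨h1, he⟩
    · exact rs_not h1
  have hdU : ∀ (i : ℕ) (c : E i → ℂ), (∀ e ∈ A₁ (i + 1) ∩ A₂ (i + 1), cob bd i c e = 0) →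
      ∀ e ∈ A₁ (i + 2) ∪ A₂ (i + 2),
        cob bd (i + 1) (dd (bd := bd) A₁ (fun i => A₁ i ∩ A₂ i) i c) e = 0 := by
    intro i c hδ e he
    rcases he with he | he
    · exact dd_cob hG hA₁ i c e he
    · rw [← cob_zero (bd := bd) (i + 1) e]
      exact cob_congr fun f hf => hd2 i c hδ f (hA₂ (i + 1) e f he hf)
  refine ⟨fun c hc _ hδ e he => ?_, fun i c hc _ hδ => ?_⟩
  · obtain ⟨b, hb, -, hbd⟩ := hEU.2 0 (dd (bd := bd) A₁ (fun i => A₁ i ∩ A₂ i) 0 c)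
      (dd_mem hG 0 hc) (fun _ h => h.elim) (hdU 0 c hδ)
    have hb2 := hE₂.1 b hb (fun _ h => h.elim) (fun e he => by
      rw [← hbd e (Or.inr he)]
      exact hd2 0 c hδ e he)
    have h1 := hE₁.1 (rs (A₁ 0 ∩ A₂ 0) c - b) ((memlp_rs _ hc).sub hb) (fun _ h => h.elim) (by
      intro e he
      rw [cob_sub, ← hbd e (Or.inl he)]
      unfold dd
      rw [rs_mem he, sub_self]) e he.1
    rw [Pi.sub_apply, rs_mem he, hb2 e he.2, sub_zero] at h1
    exact h1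
  · obtain ⟨b, hb, -, hbd⟩ := hEU.2 (i + 1) (dd (bd := bd) A₁ (fun i => A₁ i ∩ A₂ i) (i + 1) c)
      (dd_mem hG _ hc) (fun _ h => h.elim) (hdU _ c hδ)
    obtain ⟨a, ha, -, hba⟩ := hE₂.2 i b hb (fun _ h => h.elim) (fun e he => by
      rw [← hbd e (Or.inr he)]
      exact hd2 _ c hδ e he)
    have hb' : Memℓp (b - cob bd i a) 2 := hb.sub (hG.mem i a ha)
    obtain ⟨c', hc', -, h1⟩ := hE₁.2 i (rs (A₁ (i + 1) ∩ A₂ (i + 1)) c - (b - cob bd i a))
      ((memlp_rs _ hc).sub hb') (fun _ h => h.elim) (by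
      intro e he
      rw [cob_sub, cob_sub, hG.sq, ← hbd e (Or.inl he)]
      unfold dd
      rw [rs_mem he]
      simp)
    refine ⟨c', hc', fun _ h => h.elim, fun e he => ?_⟩
    have h2 := h1 e he.1
    rw [Pi.sub_apply, rs_mem he, Pi.sub_apply, hba e he.2, sub_self, sub_zero] at h2
    exact h2

end

end Run7.h854.FT
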